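import Pool.Agent.H568Z.ToricProof

set_option autoImplicit false

namespace Pool.Agent.Results.MP_95a67a_ag.ACodimTwo

open MvPolynomial Pool.Agent.H568Z.Toric

/-- The codimension one conjecture fails on the Hirzebruch surface with rays
`(1,0), (0,1), (-1,1), (0,-1)`: the three homogeneous polynomials
`x₀ x₁ ^ 2`, `x₀ x₃ + x₁ x₂ ^ 2`, `x₂ x₃` lie in the irrelevant ideal and do not vanish
simultaneously, and the ideal they generate has codimension two in the critical degree. -/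
theorem result :
    ∃ (P : CompleteSimplicialFan 2 4) (F : Fin 3 → MvPolynomial (Fin 4) ℂ) (α : Fin 3 → P.Cl),
      P.u = ![![1, 0], ![0, 1], ![-1, 1], ![0, -1]] ∧
      F = ![X 0 * X 1 ^ 2, X 0 * X 3 + X 1 * X 2 ^ 2, X 2 * X 3] ∧
      (∀ i, F i ≠ 0 ∧ F i ∈ P.piece (α i) ∧ F i ∈ P.irrelevant) ∧
      P.NoCommonZero F ∧
      P.codim (Ideal.span (Set.range F)) (P.critical α) = 2 :=
  ⟨hirz, F, al, rfl, rfl, fun i => ⟨F_ne i, F_mem i, F_irr i⟩, noCommon, codim_eq⟩

end Pool.Agent.Results.MP_95a67a_ag.ACodimTwo
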